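import Pool.Agent.H315R2.EB.Stubs

/-!
# The window lemma (task WIN, MP_26e62b_al)
-/

namespace Pool.Agent.H170R2.EB

open Module Pool.Agent.H315R2.EB
open scoped Pointwise

/-- some power of `p` moves a vector into a lattice -/
theorem pow_mem {O K V : Type} [CommRing O] [IsDomain O] [IsDiscreteValuationRing O]
    [Field K] [Algebra O K] [IsFractionRing O K] [AddCommGroup V] [Module K V] [Module O V]
    [IsScalarTower O K V] {p : Kˣ}
    (hV : ∀ c : Kˣ, ∃ (u : Oˣ) (k : ℤ), (c : K) = algebraMap O K u * ((p ^ k : Kˣ) : K))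
    (L0 : Lat O K V) (h3 : ∀ k : ℤ, 0 ≤ k → p ^ k • L0.1 ≤ L0.1) (x : V) :
    ∃ n : ℤ, ∀ k : ℤ, n ≤ k → p ^ k • x ∈ L0.1 := by
  have hx : x ∈ Submodule.span K (L0.1 : Set V) := by
    rw [L0.2.span_eq_top]; trivial
  induction hx using Submodule.span_induction with
  | mem x hx =>
    refine ⟨0, fun k hk => h3 k hk (Submodule.smul_mem_pointwise_smul x _ _ hx)⟩
  | zero => exact ⟨0, fun k _ => by simp⟩
  | add x y _ _ hx hy =>
    obtain ⟨a, ha⟩ := hx
    obtain ⟨b, hb⟩ := hy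
    refine ⟨max a b, fun k hk => ?_⟩
    rw [smul_add]
    exact L0.1.add_mem (ha k (le_trans (le_max_left _ _) hk)) (hb k (le_trans (le_max_right _ _) hk))
  | smul c x _ hx =>
    obtain ⟨a, ha⟩ := hx
    by_cases hc : c = 0
    · exact ⟨0, fun k _ => by simp [hc]⟩
    · obtain ⟨u, j, hj⟩ := hV (Units.mk0 c hc)
      refine ⟨a - j, fun k hk => ?_⟩
      have h1 : p ^ k • c • x = (u : O) • p ^ (k + j) • x := by
        have h2 : c = algebraMap O K u * ((p ^ j : Kˣ) : K) := by simpa using hj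
        rw [Units.smul_def, Units.smul_def, ← algebraMap_smul K (u : O), smul_smul, smul_smul, h2,
          zpow_add]
        congr 1
        push_cast
        ring
      rw [h1]
      exact L0.1.smul_mem _ (ha _ (by omega))

/-- some power of `p` moves a lattice into a lattice -/
theorem pow_le {O K V : Type} [CommRing O] [IsDomain O] [IsDiscreteValuationRing O]
    [Field K] [Algebra O K] [IsFractionRing O K] [AddCommGroup V] [Module K V] [Module O V]
    [IsScalarTower O K V] {p : Kˣ}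
    (hV : ∀ c : Kˣ, ∃ (u : Oˣ) (k : ℤ), (c : K) = algebraMap O K u * ((p ^ k : Kˣ) : K))
    (L L0 : Lat O K V) (h3 : ∀ k : ℤ, 0 ≤ k → p ^ k • L0.1 ≤ L0.1) :
    ∃ n : ℤ, p ^ n • L.1 ≤ L0.1 := by
  obtain ⟨T, hT⟩ := L.2.fg
  have h1 : ∃ n : ℤ, ∀ x ∈ T, ∀ k : ℤ, n ≤ k → p ^ k • x ∈ L0.1 := by
    clear hT
    classical
    induction T using Finset.induction with
    | empty => exact ⟨0, by simp⟩
    | insert a T _ ih =>
      obtain ⟨n, hn⟩ := ih
      obtain ⟨m, hm⟩ := pow_mem hV L0 h3 a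
      refine ⟨max n m, fun x hx k hk => ?_⟩
      rcases Finset.mem_insert.1 hx with rfl | hx
      · exact hm k (le_trans (le_max_right _ _) hk)
      · exact hn x hx k (le_trans (le_max_left _ _) hk)
  obtain ⟨n, hn⟩ := h1
  refine ⟨n, ?_⟩
  rw [← hT]
  refine Submodule.map_le_iff_le_comap.2 (Submodule.span_le.2 ?_)
  intro x hx
  exact hn x hx n le_rfl

theorem WIN_proof (hVal : St_VAL) (hHom : St_HOM) : St_WIN := by
  intro O K V _ _ _ _ _ _ _ _ _ _ _ p hp hr L L0 hch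
  obtain ⟨hV, -⟩ := hVal O K p hp
  obtain ⟨-, -, h3, h4⟩ := hHom O K V p hp
  obtain ⟨n, hn⟩ := pow_le hV L L0 (h3 L0)
  obtain ⟨M, hM⟩ := pow_le hV L0 L (h3 L)
  have hbd : ∃ b : ℤ, ∀ z : ℤ, p ^ z • L.1 ≤ L0.1 → b ≤ z := by
    refine ⟨-M, fun z hz => ?_⟩
    by_contra hlt
    push Not at hlt
    have h5 : p ^ M • p ^ z • L.1 ≤ p ^ M • L0.1 := Submodule.map_mono hz
    have h6 : p ^ (M + z) • L.1 ≤ L.1 := by
      rw [zpow_add, mul_smul]
      exact h5.trans hM
    have h7 : p ^ (-(M + z)) • p ^ (M + z) • L.1 ≤ p ^ (-(M + z)) • L.1 := Submodule.map_mono h6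
    rw [smul_smul, ← zpow_add, neg_add_cancel, zpow_zero, one_smul] at h7
    have h8 : p ^ (-(M + z)) • L.1 ≤ p • L.1 := by
      have h9 : p ^ (-(M + z)) = p * p ^ (-(M + z) - 1) := by
        rw [← zpow_one_add]; congr 1; ring
      rw [h9, mul_smul]
      exact Submodule.map_mono (h3 L _ (by omega))
    exact absurd (h4 hr L) (not_lt_of_ge (h7.trans h8))
  obtain ⟨k, hk, hmin⟩ := Int.exists_least_of_bdd hbd ⟨n, hn⟩
  refine ⟨k, hk, ?_⟩
  have h10 : ¬ p ^ (k - 1) • L.1 ≤ L0.1 := fun h => by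
    have := hmin _ h
    omega
  have h11 : L0.1 < p ^ (k - 1) • L.1 := by
    rcases hch (k - 1) with h | h
    · exact absurd h h10
    · exact lt_of_le_not_ge h h10
  have h12 : p ^ k • L.1 = p • p ^ (k - 1) • L.1 := by
    rw [smul_smul, ← zpow_one_add]
    congr 2
    ring
  rw [h12]
  refine lt_of_le_not_ge (Submodule.map_mono h11.le) (fun h => ?_)
  have h13 : p⁻¹ • p • p ^ (k - 1) • L.1 ≤ p⁻¹ • p • L0.1 := Submodule.map_mono h
  rw [inv_smul_smul, inv_smul_smul] at h13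
  exact absurd h13 (not_le_of_gt h11)

end Pool.Agent.H170R2.EB
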